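import Pool.Agent.Y300.KS.Stm

/-! Kostlan systems: a Chernoff bound, central cells. -/

open Set MeasureTheory ProbabilityTheory Filter Topology

namespace Pool.Agent.Y809.KS

open Pool.Agent.K300 Pool.Agent.Y300.KS

theorem chern_aux {Ω : Type*} [MeasurableSpace Ω] (P : Measure Ω) [IsProbabilityMeasure P]
    (ι : Type) [Fintype ι] (E : ι → Set Ω) (hE : ∀ i, MeasurableSet (E i)) (hI : iIndepSet E P)
    (p : ℝ) (hp : ∀ i, p ≤ P.real (E i)) :
    ∫ ω, ∏ i, (1 - (E i).indicator (fun _ => (1:ℝ)) ω / 2) ∂P ≤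
      Real.exp (-(p / 2) * Fintype.card ι) := by
  have h1 := (hI.iIndepFun_indicator (β := ℝ)).integral_fun_prod_comp
    (f := fun _ y => 1 - y / 2)
    (fun i => (measurable_const.indicator (hE i)).aemeasurable)
    (fun i => (by fun_prop : Measurable fun y : ℝ => 1 - y / 2).aestronglyMeasurable)
  have h2 : ∀ i, ∫ ω, (1 - (E i).indicator (fun _ => (1:ℝ)) ω / 2) ∂P = 1 - P.real (E i) / 2 := by
    intro i
    have hint : Integrable ((E i).indicator (fun _ => (1:ℝ))) P :=
      (integrable_const (1:ℝ)).indicator (hE i)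
    rw [integral_sub (integrable_const _) (hint.div_const 2), integral_div,
      integral_indicator_const _ (hE i)]
    simp
  have h3 : ∀ i, 1 - P.real (E i) / 2 ≤ Real.exp (-(p / 2)) := by
    intro i
    have := Real.add_one_le_exp (-(p / 2))
    have := hp i
    linarith
  have h4 : ∀ i, 0 ≤ 1 - P.real (E i) / 2 := by
    intro i
    have : P.real (E i) ≤ 1 := measureReal_le_one
    linarith
  have h1' : ∫ ω, ∏ i, (1 - (E i).indicator (fun _ => (1:ℝ)) ω / 2) ∂P =
      ∏ i, (1 - P.real (E i) / 2) := by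
    rw [← Finset.prod_congr rfl (fun i _ => h2 i)]
    exact h1
  rw [h1']
  calc ∏ i, (1 - P.real (E i) / 2) ≤ ∏ _i : ι, Real.exp (-(p / 2)) :=
        Finset.prod_le_prod (fun i _ => h4 i) (fun i _ => h3 i)
    _ = Real.exp (-(p / 2) * Fintype.card ι) := by
        rw [Finset.prod_const, Finset.card_univ, ← Real.exp_nat_mul]
        ring_nf

theorem chern_all.{u} : S_CHERN.{u} := by
  intro p hp
  have hl : Real.log 2 < 1 := by
    have := Real.log_two_lt_d9
    linarith
  refine ⟨Real.exp (-((1 - Real.log 2) * (p / 2))), Real.exp_pos _, ?_, ?_⟩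
  · rw [Real.exp_lt_one_iff]
    have : 0 < (1 - Real.log 2) * (p / 2) := mul_pos (by linarith) (by linarith)
    linarith
  intro Ω _ P _ ι _ E hE hI hpE
  have hb := chern_aux P ι E hE hI p hpE
  set N : ℝ := (Fintype.card ι : ℝ) with hN
  set Z : Ω → ℝ := fun ω => ∏ i, (1 - (E i).indicator (fun _ => (1:ℝ)) ω / 2) with hZ
  have hZ0 : ∀ ω, 0 ≤ Z ω := by
    intro ω
    refine Finset.prod_nonneg fun i _ => ?_
    by_cases h : ω ∈ E i <;> simp [h]; norm_num
  have hZ1 : ∀ ω, Z ω = Real.exp (-(Real.log 2 * ∑ i, (E i).indicator (fun _ => (1:ℝ)) ω)) := by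
    intro ω
    rw [Finset.mul_sum, ← Finset.sum_neg_distrib, Real.exp_sum]
    refine Finset.prod_congr rfl fun i _ => ?_
    by_cases h : ω ∈ E i
    · simp only [indicator_of_mem h, mul_one]
      rw [Real.exp_neg, Real.exp_log (by norm_num)]
      norm_num
    · simp [indicator_of_notMem h]
  have hZm : Measurable Z := by
    refine Finset.measurable_fun_prod _ fun i _ => ?_
    exact measurable_const.sub ((measurable_const.indicator (hE i)).div_const 2)
  have hZle : ∀ ω, Z ω ≤ 1 := by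
    intro ω
    rw [hZ1]
    rw [Real.exp_le_one_iff]
    have h1 : 0 ≤ ∑ i, (E i).indicator (fun _ => (1:ℝ)) ω :=
      Finset.sum_nonneg fun i _ => indicator_nonneg (fun _ _ => zero_le_one) _
    have h2 : 0 < Real.log 2 := Real.log_pos (by norm_num)
    nlinarith [mul_nonneg h2.le h1]
  have hZi : Integrable Z P := by
    refine Integrable.of_bound hZm.aestronglyMeasurable 1 (Eventually.of_forall fun ω => ?_)
    rw [Real.norm_of_nonneg (hZ0 ω)]
    exact hZle ω
  have hmk := mul_meas_ge_le_integral_of_nonneg (μ := P) (f := Z)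
    (Eventually.of_forall hZ0) hZi (Real.exp (-(Real.log 2 * (p / 2 * N))))
  have hsub : {ω | ∑ i, (E i).indicator (fun _ => (1:ℝ)) ω < p / 2 * Fintype.card ι} ⊆
      {ω | Real.exp (-(Real.log 2 * (p / 2 * N))) ≤ Z ω} := by
    intro ω hω
    simp only [mem_ofPred_eq] at hω ⊢
    rw [hZ1]
    have h2 : 0 < Real.log 2 := Real.log_pos (by norm_num)
    apply Real.exp_le_exp.2
    have := mul_le_mul_of_nonneg_left hω.le h2.le
    linarith
  have hle : P.real {ω | ∑ i, (E i).indicator (fun _ => (1:ℝ)) ω < p / 2 * Fintype.card ι} ≤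
      P.real {ω | Real.exp (-(Real.log 2 * (p / 2 * N))) ≤ Z ω} := measureReal_mono hsub
  have h5 : Real.exp (-(Real.log 2 * (p / 2 * N))) *
      P.real {ω | Real.exp (-(Real.log 2 * (p / 2 * N))) ≤ Z ω} ≤ Real.exp (-(p / 2) * N) :=
    hmk.trans hb
  have h6 : P.real {ω | Real.exp (-(Real.log 2 * (p / 2 * N))) ≤ Z ω} ≤
      Real.exp (-((1 - Real.log 2) * (p / 2))) ^ Fintype.card ι := by
    rw [← Real.exp_nat_mul]
    have h7 : Real.exp (-(p / 2) * N) = Real.exp (-(Real.log 2 * (p / 2 * N))) *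
        Real.exp ((Fintype.card ι : ℝ) * -((1 - Real.log 2) * (p / 2))) := by
      rw [← Real.exp_add]
      congr 1
      rw [← hN]
      ring
    rw [h7] at h5
    exact le_of_mul_le_mul_left h5 (Real.exp_pos _)
  exact hle.trans h6

theorem cen_all : S_CEN := by
  have key : ∀ D : ℕ, 1 ≤ D → ∀ n, 16 ≤ n → ∀ a, a < nc n D → 20 * (ci n D a) ≤ 20 * (n / 4) + n := by
    intro D hD n hn a ha
    have h1 : ell n * ell n ≤ n := Nat.sqrt_le n
    have h2 : a * (20 * D) ≤ ell n := by
      have h3 : nc n D * (20 * D) ≤ ell n := Nat.div_mul_le_self _ _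
      exact (Nat.mul_le_mul_right _ ha.le).trans h3
    have h4 : a * (20 * D) * ell n ≤ n := (Nat.mul_le_mul_right _ h2).trans h1
    unfold ci
    have h5 : 20 * (n / 4 + a * (D * ell n)) = 20 * (n / 4) + a * (20 * D) * ell n := by ring
    omega
  intro D hD n hn a b ha hb
  have h1 := key D hD n hn a ha
  have h2 := key D hD n hn b hb
  have h3 : n / 4 ≤ ci n D a := Nat.le_add_right _ _
  have h4 : n / 4 ≤ ci n D b := Nat.le_add_right _ _
  refine ⟨by omega, by omega, by omega⟩

end Pool.Agent.Y809.KS
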